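import Pool.Agent.Lib.MP_e9c0f3_ag.H48.Main

open MvPolynomial Pool.Agent.Lib.MP_e9c0f3_ag Pool.Agent.Lib.MP_e9c0f3_ag.H48

namespace Pool.Agent.Variants.MP_e9c0f3_ag.SecondOrder

/-- The variational Hodge conjecture, in de Rham form, for families of smooth hypersurfaces of
dimension `2 * k` and combinations, with distinct nonzero coefficients, of the classes of
hypersurfaces `x = f j = 0` of one linear space `x = 0` of dimension `k + 1`: all the cycles
deform. -/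
theorem result (k d m : ℕ) (e : Fin m → ℕ) (he : ∀ j, 0 < e j) (hd : 2 * ∑ j, e j + 1 < d)
    (A : Type) [CommRing A] [IsDomain A] [Algebra ℂ A] [Algebra.Smooth ℂ A]
    (F β : MvPolynomial (Fin (k + 1 + (k + 1))) A) (hF : F.IsHomogeneous d)
    (hs : ∀ (s : A →ₐ[ℂ] ℂ) (z : Fin (k + 1 + (k + 1)) → ℂ),
      (∀ i, eval z (pderiv i (map (s : A →+* ℂ) F)) = 0) → z = 0)
    (hβ : β.totalDegree ≤ (k + 1) * (d - 2))
    (hflat : ∀ D : Derivation ℂ A A, Exact F (coeffMap D β + coeffMap D F * β))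
    (a : Fin m → ℂ) (ha : ∀ j, a j ≠ 0) (hinj : Function.Injective a) (s₀ : A →ₐ[ℂ] ℂ)
    (x g : Fin k → MvPolynomial (Fin (k + 1 + (k + 1))) ℂ)
    (f : Fin m → MvPolynomial (Fin (k + 1 + (k + 1))) ℂ)
    (r : MvPolynomial (Fin (k + 1 + (k + 1))) ℂ) (hsp : Split d e (map (s₀ : A →+* ℂ) F) x g f r)
    (hrad : ∀ j, (Ideal.span (Set.range x ∪ {f j, ∏ i ∈ Finset.univ.erase j, f i})).IsRadical)
    (h0 : Exact (map (s₀ : A →+* ℂ) F) (map (s₀ : A →+* ℂ) β - ∑ j, a j • cyc x g f r j))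
    (s : A →ₐ[ℂ] ℂ) :
    ∃ x' g' f' r', Split d e (map (s : A →+* ℂ) F) x' g' f' r' ∧
      Exact (map (s : A →+* ℂ) F) (map (s : A →+* ℂ) β - ∑ j, a j • cyc x' g' f' r' j) :=
  H48.main k d m e he hd A F β hF hs hβ hflat a ha hinj s₀ x g f r hsp hrad h0 s

end Pool.Agent.Variants.MP_e9c0f3_ag.SecondOrder
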