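import Pool.Agent.Lib.MP_e9c0f3_ag.H57T.Main

/-! The tropical Hodge conjecture for tropical tori: every rational class of bidegree `(q, q)`,
`q = n + 1`, killed by the eigenwave map is the class of a tropical cycle. -/

theorem Pool.Agent.Variants.MP_e9c0f3_ag.TropicalHodge.result {g n : ℕ} (hn : n + 1 ≤ g)
    (A : Matrix (Fin g) (Fin g) ℝ) (hA : A.det ≠ 0)
    (u : (Fin (n + 1) → Fin g) → (Fin (n + 1) → Fin g) → ℚ) (hu : H57T.Alternating u)
    (hw : H57T.EigenwaveZero A u) :
    ∃ Z : H57T.TropCycle A (n + 1), Z.HasClass (H57T.realClass A u) :=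
  H57T.tropical_hodge hn A hA u hu hw
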