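import Pool.Agent.Lib.MP_e9c0f3_ag.H5T.Cmp
import Pool.Agent.Lib.MP_e9c0f3_ag.H5T.Ends
import Pool.Agent.Lib.MP_e9c0f3_ag.H5T.Example
import Pool.Agent.Lib.MP_e9c0f3_ag.CI.Fin

/-! The tropical Hodge conjecture for polyhedral complexes with real edge lengths: every rational
class of bidegree `(k, k)` killed by the eigenwave operator is the class of a tropical cycle, if
the complex has local vanishing and hard Lefschetz, or is a simple complete intersection of
dimension at most `2 * k` in a product of tropical projective spaces. The condition on `used`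
holds for ample divisors (first case), in `TP^n`, and in `TP^a × TP^b` for `a, b ≤ 3`. -/

open H5T Matrix

namespace Pool.Agent.Variants.MP_e9c0f3_ag.TropicalLefschetz

theorem result {n k : ℕ} (X : TropCx n)
    (h : (X.LocVan ∧ ∃ d m, X.HardLef d m) ∨
      ∃ (m s c : ℕ) (blk : Fin n → Fin m) (col : Fin s → Fin c) (ex : Fin s → Fin n → ℚ)
        (co : Fin s → ℝ) (R : ℝ), X.IsCI blk col ex co R ∧ n ≤ 2 * k + c ∧
        ∀ B : Finset (Fin c), B.Nonempty →
          blk '' used col ex B = Set.univ ∨ (used col ex B).ncard ≤ B.card + 2)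
    (u : List (Set (Pt n)) →₀ Mv n) (hu : u ∈ X.Cyc k k)
    (hw : X.wave u ∈ (X.C X.Flag (re (X.F (k + 1))) k).map bd ⊔ X.Z X.Flag (re X.I)) :
    ∃ W, X.TropCyc k W ∧ u.mapDomain (List.map X.pt) - cut W ∈ X.B Inside k k := by
  obtain ⟨c, hc, hb, h⟩ : ∃ c ∈ X.C Inside (X.F k) k ⊓ Straight k, bd c ∈ X.Z Inside X.I ∧
      u.mapDomain (List.map X.pt) - c ∈ X.B Inside k k := by
    rcases h with ⟨hV, d, m, hL⟩ | ⟨m, s, c, blk, col, ex, co, R, h, hk, hB⟩
    · exact tropical_hodge X m hV hL u hu hw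
    · exact tropical_hodge_van X h.locVan (h.van hk hB) u hu hw
  obtain ⟨W, hW, rfl⟩ := X.rays.exists_cycle_cut hc.1 hc.2 hb
  exact ⟨W, hW, h⟩

/-- Nothing is lost in passing from flags to affine simplices: the map is injective in homology. -/
theorem comparison {n p q : ℕ} (X : TropCx n) (u : List (Set (Pt n)) →₀ Mv n) (hu : u ∈ X.Cyc p q)
    (h : u.mapDomain (List.map X.pt) ∈ X.B Inside p q) : u ∈ X.B X.Flag p q :=
  X.comparison hu.1 h

/-- Local vanishing and hard Lefschetz hold for the tropical projective line, where the group of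
bidegree `(1, 1)` is not zero. -/
theorem line_example (a : ℝ) (ha : 0 < a) : ∃ (X : TropCx 1)
    (m : Set (Pt 1) → Module.Dual ℚ (Fin 1 → ℚ)),
    {x : Pt 1 | 0 ≤ x 0 ∧ x 0 ≤ a} ∈ X.cells ∧ X.LocVan ∧ X.HardLef 1 m ∧
      ¬ X.Cyc 1 1 ≤ X.B X.Flag 1 1 :=
  example_line a ha

/-- Tropical polynomials of multidegrees `δ i` (the Newton polytopes are products of simplices)
whose Cayley subdivision is a triangulation give a complete intersection; this is the case if the
coefficients are independent over `ℚ`. -/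
theorem intersection_example {n m s c : ℕ} (blk : Fin n → Fin m) (col : Fin s → Fin c)
    (ex : Fin s → Fin n → ℚ) (co : Fin s → ℝ) (δ : Fin c → Fin m → ℚ) (h0 : ∀ a k, 0 ≤ ex a k)
    (h1 : ∀ a t, ex a ⬝ᵥ fan blk (.inl t) ≤ δ (col a) t)
    (v : ∀ (i : Fin c) (κ : Fin m → Option (Fin n)), ∃ a, col a = i ∧
      ex a = fun k => if κ (blk k) = some k then δ i (blk k) else 0)
    (ht : LinearIndependent ℚ co ∨ ∀ x, LinearIndependent ℚ fun a : tops col ex co x =>
      ((Pi.single (col a) 1 : Fin c → ℚ), ex a)) :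
    ∃ (R : ℝ) (X : TropCx n), X.IsCI blk col ex co R :=
  exists_isCI blk col ex co δ h0 h1 v (ht.elim tops_indep id)

/-- In projective space the condition on `used` always holds. -/
theorem used_projective {n s c : ℕ} (blk : Fin n → Fin 1) (col : Fin s → Fin c)
    (ex : Fin s → Fin n → ℚ) (B : Finset (Fin c)) :
    blk '' used col ex B = Set.univ ∨ (used col ex B).ncard ≤ B.card + 2 := by
  rcases (used col ex B).eq_empty_or_nonempty with h | h
  · simp [h]
  · exact Or.inl (h.image blk).eq_univ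

/-- It always holds in `TP^a × TP^b` with `a, b ≤ 3`, for instance for a product of two surfaces
in `TP^3`. -/
theorem used_product {n s c : ℕ} (blk : Fin n → Fin 2) (col : Fin s → Fin c)
    (ex : Fin s → Fin n → ℚ) (h3 : ∀ t, (blk ⁻¹' {t}).ncard ≤ 3) (B : Finset (Fin c))
    (hB : B.Nonempty) :
    blk '' used col ex B = Set.univ ∨ (used col ex B).ncard ≤ B.card + 2 := by
  refine or_iff_not_imp_left.2 fun hn => ?_
  have hc := hB.card_pos
  obtain ⟨t, ht⟩ := (Set.ne_univ_iff_exists_notMem _).1 hn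
  have h2 : ∀ t u : Fin 2, u ≠ t → u = t + 1 := by decide
  have hs : used col ex B ⊆ blk ⁻¹' {t + 1} := fun i hi => h2 t _ fun e => ht ⟨i, hi, e⟩
  exact ((Set.ncard_le_ncard hs (Set.toFinite _)).trans (h3 _)).trans (by omega)

end Pool.Agent.Variants.MP_e9c0f3_ag.TropicalLefschetz
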